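import Mathlib
import Pool.Agent.Helper627_Conc.Main

open Cardinal Ordinal

namespace Pool.Agent.Results.MP_ce56ef_an.DichotomyFails

/-- `Y` is `(1+)`-separated: distinct points of `Y` are at distance greater than one. -/
def OnePlusSeparated {X : Type} [NormedAddCommGroup X] (Y : Set X) : Prop :=
  ∀ x ∈ Y, ∀ y ∈ Y, x ≠ y → 1 < ‖x - y‖

/-- `Y` is `(1-)`-concentrated: distinct points of `Y` are at distance less than one. -/
def OneMinusConcentrated {X : Type} [NormedAddCommGroup X] (Y : Set X) : Prop :=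
  ∀ x ∈ Y, ∀ y ∈ Y, x ≠ y → ‖x - y‖ < 1

/-- `Y` is `(1-ε)`-concentrated. -/
def Concentrated {X : Type} [NormedAddCommGroup X] (ε : ℝ) (Y : Set X) : Prop :=
  ∀ x ∈ Y, ∀ y ∈ Y, x ≠ y → ‖x - y‖ ≤ 1 - ε

/-- Alternative (a): the unit sphere contains an uncountable `(1+)`-separated subset. -/
def AltA (X : Type) [NormedAddCommGroup X] : Prop :=
  ∃ Y : Set X, Y ⊆ Metric.sphere 0 1 ∧ ¬ Y.Countable ∧ OnePlusSeparated Y

/-- Alternative (b): every uncountable subset of the unit sphere contains an uncountable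
`(1-)`-concentrated subset. -/
def AltB (X : Type) [NormedAddCommGroup X] : Prop :=
  ∀ A : Set X, A ⊆ Metric.sphere 0 1 → ¬ A.Countable →
    ∃ B : Set X, B ⊆ A ∧ ¬ B.Countable ∧ OneMinusConcentrated B

/-- Alternative (b'): every uncountable subset of the unit sphere contains, for some positive
`ε`, an uncountable `(1-ε)`-concentrated subset. -/
def AltB' (X : Type) [NormedAddCommGroup X] : Prop :=
  ∀ A : Set X, A ⊆ Metric.sphere 0 1 → ¬ A.Countable →
    ∃ ε : ℝ, 0 < ε ∧ ∃ B : Set X, B ⊆ A ∧ ¬ B.Countable ∧ Concentrated ε B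

/-- There is a nonseparable Banach space over `𝕜 = ℝ` or `ℂ` for which (a), (b) and (b') all
fail. Moreover every uncountable subset of its unit sphere contains two points at distance less
than one, and its unit sphere has an uncountable subset `A` all of whose uncountable subsets
contain two points at distance at least `6/5`. -/
theorem result (𝕜 : Type) [RCLike 𝕜] :
    ∃ (X : Type) (_ : NormedAddCommGroup X) (_ : NormedSpace 𝕜 X),
      CompleteSpace X ∧ ¬ TopologicalSpace.SeparableSpace X ∧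
      ¬ AltA X ∧ ¬ AltB X ∧ ¬ AltB' X ∧
      (∀ Y : Set X, Y ⊆ Metric.sphere 0 1 → ¬ Y.Countable →
        ∃ x ∈ Y, ∃ y ∈ Y, x ≠ y ∧ ‖x - y‖ < 1) ∧
      (∃ A : Set X, A ⊆ Metric.sphere 0 1 ∧ ¬ A.Countable ∧
        ∀ B : Set X, B ⊆ A → ¬ B.Countable → ∃ x ∈ B, ∃ y ∈ B, 6 / 5 ≤ ‖x - y‖) := by
  classical
  -- the index set
  let Ω : Type := (ℵ₁).ord.ToType
  have hcard : #Ω = ℵ₁ := Cardinal.mk_ord_toType _
  have hΩunc : Uncountable Ω := by
    rw [← not_countable_iff, ← Cardinal.mk_le_aleph0_iff, hcard]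
    exact not_le.mpr aleph0_lt_aleph_one
  have hc : ∀ a : Ω, (Set.Iio a).Countable := by
    intro a
    rw [← Cardinal.le_aleph0_iff_set_countable, ← Cardinal.lt_aleph_one_iff]
    have h1 := Cardinal.mk_Iio_lt a (by simp [Ω])
    rw [hcard] at h1
    exact h1
  obtain ⟨r, hr⟩ : ∃ r : Ω → ℕ → Bool, Function.Injective r := by
    have h1 : #Ω ≤ #(ℕ → Bool) := by
      rw [hcard]
      have h2 : #(ℕ → Bool) = 𝔠 := by simp
      rw [h2]
      exact aleph_one_le_continuum
    obtain ⟨f⟩ := h1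
    exact ⟨f, f.injective⟩
  obtain ⟨Z, hZ1, hZ0⟩ := Helper627_Conc.exists_colouring hc
  let S : Submodule 𝕜 (Helper627_Conc.EE 𝕜 Ω) := Helper627_Conc.XX 𝕜 r Z hr
  have hSc : IsClosed (S : Set (Helper627_Conc.EE 𝕜 Ω)) :=
    Submodule.isClosed_topologicalClosure _
  have hcomplete : CompleteSpace S := hSc.completeSpace_coe
  have hmem : ∀ ζ, Helper627_Conc.zz 𝕜 r Z hr ζ ∈ S := fun ζ =>
    Submodule.le_topologicalClosure _ (Submodule.subset_span ⟨ζ, rfl⟩)
  let z : Ω → S := fun ζ => ⟨Helper627_Conc.zz 𝕜 r Z hr ζ, hmem ζ⟩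
  have hz1 : ∀ ξ η, ξ ≠ η → 1 ≤ ‖z ξ - z η‖ := fun ξ η h =>
    Helper627_Conc.one_apart r Z hr h
  have hz2 : ∀ ξ η, ξ ≠ η → Z ξ η → 3/2 ≤ ‖z ξ - z η‖ := fun ξ η h h' =>
    Helper627_Conc.far r Z hr h h'
  have hzn : ∀ ξ, ‖z ξ‖ = 5/4 := fun ξ => Helper627_Conc.norm_zz r Z hr ξ
  let a : Ω → S := fun ζ => ((4/5 : ℝ) : 𝕜) • z ζ
  have hadist : ∀ ξ η, ‖a ξ - a η‖ = 4/5 * ‖z ξ - z η‖ := by
    intro ξ η
    show ‖((4/5 : ℝ) : 𝕜) • z ξ - ((4/5 : ℝ) : 𝕜) • z η‖ = _
    rw [← smul_sub, norm_smul, RCLike.norm_ofReal, abs_of_pos (by norm_num)]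
  have hanorm : ∀ ξ, ‖a ξ‖ = 1 := by
    intro ξ
    show ‖((4/5 : ℝ) : 𝕜) • z ξ‖ = _
    rw [norm_smul, RCLike.norm_ofReal, abs_of_pos (by norm_num), hzn]
    norm_num
  have hainj : Function.Injective a := by
    intro ξ η h
    by_contra hne
    have h1 := hadist ξ η
    have h2 := hz1 ξ η hne
    have h3 : ‖a ξ - a η‖ = 0 := by
      rw [h]
      have h4 : a η - a η = 0 := sub_self _
      rw [h4]
      exact norm_zero
    linarith
  -- close pairs
  have hclose : ∀ Y : Set S, Y ⊆ Metric.sphere 0 1 → ¬ Y.Countable →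
      ∃ x ∈ Y, ∃ y ∈ Y, x ≠ y ∧ ‖x - y‖ < 1 := by
    intro Y hY hYc
    obtain ⟨w, ⟨x, hx, rfl⟩, w', ⟨y, hy, rfl⟩, hne, hlt⟩ :=
      Helper627_Conc.sphere_close (𝕜 := 𝕜) r Z hr hZ0 (Subtype.val '' Y)
        (by rintro _ ⟨x, _, rfl⟩; exact x.2)
        (by
          rintro _ ⟨x, hx, rfl⟩
          have := hY hx
          rw [mem_sphere_zero_iff_norm] at this
          exact this)
        (by
          intro h
          exact hYc (Set.countable_of_injective_of_countable_image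
            Subtype.val_injective.injOn h))
    exact ⟨x, hx, y, hy, fun h => hne (by rw [h]), hlt⟩
  -- far pairs
  have hfar : ∀ B : Set S, B ⊆ Set.range a → ¬ B.Countable →
      ∃ x ∈ B, ∃ y ∈ B, x ≠ y ∧ 6 / 5 ≤ ‖x - y‖ := by
    intro B hB hBc
    have h1 : ¬ (a ⁻¹' B).Countable := by
      intro h
      apply hBc
      have h2 : a '' (a ⁻¹' B) = B := Set.image_preimage_eq_of_subset hB
      rw [← h2]
      exact h.image a
    obtain ⟨ξ, hξ, η, hη, hne, hZ⟩ := hZ1 _ h1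
    refine ⟨a ξ, hξ, a η, hη, fun h => hne (hainj h), ?_⟩
    rw [hadist]
    have := hz2 ξ η hne hZ
    linarith
  have hAunc : ¬ (Set.range a).Countable := by
    intro h
    have h1 : (a ⁻¹' (Set.range a)).Countable := h.preimage hainj
    rw [Set.preimage_range] at h1
    exact Set.not_countable_univ h1
  have hAsph : Set.range a ⊆ Metric.sphere (0 : S) 1 := by
    rintro _ ⟨ξ, rfl⟩
    rw [mem_sphere_zero_iff_norm]; exact hanorm ξ
  refine ⟨S, inferInstance, inferInstance, hcomplete, ?_, ?_, ?_, ?_, hclose, ?_⟩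
  · intro hsep
    have hdisc : ∀ ξ η, ξ ≠ η → 4/5 ≤ dist (a ξ) (a η) := by
      intro ξ η h
      rw [dist_eq_norm, hadist]
      have := hz1 ξ η h
      linarith
    obtain ⟨D, hDc, hDd⟩ := TopologicalSpace.exists_countable_dense S
    have hpick : ∀ ξ : Ω, ∃ d ∈ D, dist (a ξ) d < 2/5 := by
      intro ξ
      have h1 := hDd (a ξ)
      obtain ⟨d, hd, hd'⟩ := Metric.mem_closure_iff.1 h1 (2/5) (by norm_num)
      exact ⟨d, hd, hd'⟩
    choose f hfD hf using hpick
    have hfinj : Function.Injective f := by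
      intro ξ η h
      by_contra hne
      have h1 := hdisc ξ η hne
      have h2 : dist (a ξ) (a η) ≤ dist (a ξ) (f ξ) + dist (a η) (f η) := by
        rw [h, dist_comm (a η) (f η)]
        exact dist_triangle _ _ _
      have h3 := hf ξ
      have h4 := hf η
      linarith
    have h1 : (Set.range f).Countable := hDc.mono (by rintro _ ⟨ξ, rfl⟩; exact hfD ξ)
    have h2 : (f ⁻¹' (Set.range f)).Countable := h1.preimage hfinj
    rw [Set.preimage_range] at h2
    exact Set.not_countable_univ h2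
  · rintro ⟨Y, hY, hYc, hsep⟩
    obtain ⟨x, hx, y, hy, hne, hlt⟩ := hclose Y hY hYc
    have := hsep x hx y hy hne
    linarith
  · intro h
    obtain ⟨B, hB, hBc, hcon⟩ := h (Set.range a) hAsph hAunc
    obtain ⟨x, hx, y, hy, hne, hge⟩ := hfar B hB hBc
    have := hcon x hx y hy hne
    linarith
  · intro h
    obtain ⟨ε, hε, B, hB, hBc, hcon⟩ := h (Set.range a) hAsph hAunc
    obtain ⟨x, hx, y, hy, hne, hge⟩ := hfar B hB hBc
    have := hcon x hx y hy hne
    linarith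
  · refine ⟨Set.range a, hAsph, hAunc, fun B hB hBc => ?_⟩
    obtain ⟨x, hx, y, hy, _, hge⟩ := hfar B hB hBc
    exact ⟨x, hx, y, hy, hge⟩

end Pool.Agent.Results.MP_ce56ef_an.DichotomyFails
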